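import Mathlib
import Pool.Agent.R444.Golomb

namespace Pool.Agent.Results.MP_cb32b9_nt.NoGolombRuler

open Pool.Agent.R444.Golomb

/-- The set `Bose_2(q,1)` of all residues `a` modulo `q^2-1`, `q = |F|`, with
`θ^a = θ + v` for some `v ∈ F`; here `L` is the quadratic extension of `F` and `θ ∈ Lˣ`. -/
def Bose (F L : Type*) [Field F] [Field L] [Algebra F L] (θ : Lˣ) :
    Set (ZMod ((Nat.card F) ^ 2 - 1)) :=
  {a | ∃ v : F, (θ : L) ^ a.val = (θ : L) + algebraMap F L v}

/-- The marks `{0,1,4,10,18,23,25}` read as residues modulo `M`. -/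
def T (M : ℕ) : Set (ZMod M) := {0, 1, 4, 10, 18, 23, 25}

lemma sum_eq {F L : Type*} [Field F] [Field L] [Algebra F L] (g : L) (u n : F)
    (hq : g ^ 2 = algebraMap F L u * g - algebraMap F L n) (t : ℕ) :
    ∑ i ∈ Finset.range (t + 1), g ^ i =
      algebraMap F L (1 - n * e u n t) + algebraMap F L (e u n (t + 1)) * g := by
  induction t with
  | zero => simp [e]
  | succ t ih =>
    rw [Finset.sum_range_succ']
    have h1 : ∑ k ∈ Finset.range (t + 1), g ^ (k + 1) =
        g * ∑ k ∈ Finset.range (t + 1), g ^ k := by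
      rw [Finset.mul_sum]
      exact Finset.sum_congr rfl fun k _ => by ring
    rw [h1, ih]
    have h2 : e u n (t + 1 + 1) = u * e u n (t + 1) - n * e u n t + 1 := rfl
    rw [h2]
    simp only [map_sub, map_mul, map_add, map_one]
    linear_combination (algebraMap F L (e u n (t + 1))) * hq

lemma e_zero {F L : Type*} [Field F] [Field L] [Algebra F L] (g : L)
    (hg : ∀ x : F, algebraMap F L x ≠ g) (u n : F)
    (hq : g ^ 2 = algebraMap F L u * g - algebraMap F L n) (t : ℕ) (ht : 1 ≤ t)
    (h : ∃ x : F, ∑ i ∈ Finset.range t, g ^ i = algebraMap F L x) : e u n t = 0 := by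
  obtain ⟨t, rfl⟩ : ∃ s, t = s + 1 := ⟨t - 1, by omega⟩
  obtain ⟨x, hx⟩ := h
  rw [sum_eq g u n hq t] at hx
  by_contra hne
  apply hg ((x - (1 - n * e u n t)) / e u n (t + 1))
  have hne' : algebraMap F L (e u n (t + 1)) ≠ 0 := by
    rwa [Ne, map_eq_zero]
  rw [map_div₀, div_eq_iff hne', map_sub]
  linear_combination -hx

lemma exists_quad {F L : Type*} [Field F] [Field L] [Algebra F L]
    (hd : Module.finrank F L = 2) (g : L) (hg : ∀ x : F, algebraMap F L x ≠ g) :
    ∃ u n : F, g ^ 2 = algebraMap F L u * g - algebraMap F L n := by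
  have hfin : Module.Finite F L := Module.finite_of_finrank_pos (by omega)
  have hli : LinearIndependent F ![(1 : L), g] := by
    rw [LinearIndependent.pair_iff]
    intro s t hst
    have ht : t = 0 := by
      by_contra hne
      apply hg (-s / t)
      have hne' : algebraMap F L t ≠ 0 := by rwa [Ne, map_eq_zero]
      rw [map_div₀, div_eq_iff hne', map_neg]
      rw [Algebra.smul_def, Algebra.smul_def] at hst
      linear_combination -hst
    subst ht
    simp only [zero_smul, add_zero] at hst
    rw [Algebra.smul_def, mul_one, map_eq_zero] at hst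
    exact ⟨hst, rfl⟩
  have hspan := hli.span_eq_top_of_card_eq_finrank (by simp [hd])
  have hmem : g ^ 2 ∈ Submodule.span F (Set.range ![(1 : L), g]) := by
    rw [hspan]; trivial
  rw [Matrix.range_cons, Matrix.range_cons, Matrix.range_empty, Set.union_empty,
    Set.singleton_union, Submodule.mem_span_pair] at hmem
  obtain ⟨a, b, hab⟩ := hmem
  refine ⟨b, -a, ?_⟩
  rw [Algebra.smul_def, Algebra.smul_def] at hab
  rw [map_neg, ← hab]
  ring

theorem field_part {F L : Type*} [Field F] [Field L] [Algebra F L]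
    (hd : Module.finrank F L = 2) (g : L) (hg : ∀ x : F, algebraMap F L x ≠ g)
    (h : ∀ t ∈ ({4, 10, 18, 23, 25} : Finset ℕ),
      ∃ x : F, ∑ i ∈ Finset.range t, g ^ i = algebraMap F L x) : False := by
  obtain ⟨u, n, hq⟩ := exists_quad hd g hg
  have key : ∀ t ∈ ({4, 10, 18, 23, 25} : Finset ℕ), 1 ≤ t → e u n t = 0 :=
    fun t ht h1 => e_zero g hg u n hq t h1 (h t ht)
  exact no_common_zero u n (key 4 (by simp) (by norm_num)) (key 10 (by simp) (by norm_num))
    (key 18 (by simp) (by norm_num)) (key 23 (by simp) (by norm_num))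
    (key 25 (by simp) (by norm_num))

theorem core (F L : Type*) [Field F] [Field L] [Algebra F L]
    (hd : Module.finrank F L = 2) (θ : Lˣ) (hθ : ∀ x : Lˣ, x ∈ Subgroup.zpowers θ)
    (M : ℕ) (hM3 : 3 ≤ M) (hord : orderOf θ = M) (m : ℤ) (s : ZMod M)
    (hT : T M ⊆ (fun a => (m : ZMod M) * a + s) ''
      {a | ∃ v : F, (θ : L) ^ a.val = (θ : L) + algebraMap F L v}) : False := by
  have hne : NeZero M := ⟨by omega⟩
  -- powers of θ indexed by residues
  have hP_add : ∀ x y : ZMod M, θ ^ (x + y).val = θ ^ x.val * θ ^ y.val := by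
    intro x y
    have h := pow_mod_orderOf θ (x.val + y.val)
    rw [hord] at h
    rw [← pow_add, ZMod.val_add, h]
  have hP_mul : ∀ (t : ℕ) (x : ZMod M), θ ^ ((t : ZMod M) * x).val = (θ ^ x.val) ^ t := by
    intro t x
    induction t with
    | zero => simp
    | succ t ih =>
      rw [Nat.cast_succ, add_mul, one_mul, hP_add, ih, pow_succ]
  have hP_inj : ∀ x : ZMod M, θ ^ x.val = 1 → x = 0 := by
    intro x hx
    have h1 := orderOf_dvd_of_pow_eq_one hx
    rw [hord] at h1
    have h2 : x.val < M := ZMod.val_lt x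
    have h3 : x.val = 0 := Nat.eq_zero_of_dvd_of_lt h1 h2
    exact (ZMod.val_eq_zero x).mp h3
  -- θ is not in F
  have hθF : ∀ x : F, algebraMap F L x ≠ θ := by
    intro x hx
    have hsurj : Function.Surjective (algebraMap F L) := by
      intro y
      by_cases hy : y = 0
      · exact ⟨0, by rw [hy, map_zero]⟩
      · obtain ⟨k, hk⟩ := Subgroup.mem_zpowers_iff.mp (hθ (Units.mk0 y hy))
        refine ⟨x ^ k, ?_⟩
        rw [map_zpow₀, hx]
        have := congrArg (Units.val) hk
        simpa using this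
    have h1 : Module.finrank F L = 1 := by
      have e : F ≃ₗ[F] L := LinearEquiv.ofBijective (Algebra.linearMap F L)
        ⟨(algebraMap F L).injective, hsurj⟩
      rw [← e.finrank_eq, Module.finrank_self]
    omega
  -- elements
  have hex : ∀ t : ℕ, (t : ZMod M) ∈ T M → ∃ a : ZMod M, (m : ZMod M) * a + s = t ∧
      ∃ v : F, (θ : L) ^ a.val = (θ : L) + algebraMap F L v := by
    intro t ht
    obtain ⟨a, ha, hat⟩ := hT ht
    exact ⟨a, hat, ha⟩
  obtain ⟨a0, ha0, v0, hv0⟩ := hex 0 (by simp [T])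
  obtain ⟨a1, ha1, v1, hv1⟩ := hex 1 (by simp [T])
  have hmu : (m : ZMod M) * (a1 - a0) = 1 := by
    have h0 : (m : ZMod M) * a0 + s = 0 := by simpa using ha0
    have h1 : (m : ZMod M) * a1 + s = 1 := by simpa using ha1
    linear_combination h1 - h0
  set μ := a1 - a0 with hμ
  have hform : ∀ t : ℕ, (t : ZMod M) ∈ T M → ∃ v : F,
      (θ : L) ^ a0.val * ((θ : L) ^ μ.val) ^ t = (θ : L) + algebraMap F L v := by
    intro t ht
    obtain ⟨a, ha, v, hv⟩ := hex t ht
    refine ⟨v, ?_⟩
    have haa : a = a0 + (t : ZMod M) * μ := by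
      have h0 : (m : ZMod M) * a0 + s = 0 := by simpa using ha0
      have h2 : (m : ZMod M) * (a - a0) = t := by linear_combination ha - h0
      linear_combination (-(a - a0)) * hmu + μ * h2
    rw [← hv, haa]
    have h3 := hP_add a0 ((t : ZMod M) * μ)
    rw [hP_mul] at h3
    have h4 := congrArg (Units.val) h3
    push_cast at h4
    exact h4.symm
  set c : L := (θ : L) ^ a0.val with hc
  set g : L := (θ : L) ^ μ.val with hg
  have hθ0 : (θ : L) ≠ 0 := θ.ne_zero
  have hc0 : c ≠ 0 := pow_ne_zero _ hθ0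
  have hg1 : g ≠ 1 := by
    intro h1
    have h2 : θ ^ μ.val = 1 := by
      apply Units.ext
      push_cast
      exact h1
    have h3 := hP_inj μ h2
    rw [h3, mul_zero] at hmu
    have h4 : (1 : ZMod M) ≠ 0 := by
      have : Fact (1 < M) := ⟨by omega⟩
      exact one_ne_zero
    exact h4 hmu.symm
  have hc_eq : c = (θ : L) + algebraMap F L v0 := hv0
  have hcg : c * g = (θ : L) + algebraMap F L v1 := by
    have h1 := congrArg (Units.val) (hP_add a0 μ)
    have h2 : a0 + μ = a1 := by rw [hμ]; ring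
    rw [h2] at h1
    push_cast at h1
    rw [← hv1, h1]
  have hgF : ∀ x : F, algebraMap F L x ≠ g := by
    intro x hx
    have h1 : (θ : L) * (g - 1) = algebraMap F L (v1 - v0 * x) := by
      rw [map_sub, map_mul, hx]
      rw [hc_eq] at hcg
      linear_combination hcg
    have hx1 : x - 1 ≠ 0 := by
      intro h0
      apply hg1
      have : x = 1 := by linear_combination h0
      rw [← hx, this, map_one]
    apply hθF ((v1 - v0 * x) / (x - 1))
    have h2 : algebraMap F L (x - 1) ≠ 0 := by rwa [Ne, map_eq_zero]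
    rw [map_div₀, div_eq_iff h2, ← h1, map_sub, map_one, hx]
  apply field_part hd g hgF
  intro t ht
  have htT : (t : ZMod M) ∈ T M := by
    simp only [Finset.mem_insert, Finset.mem_singleton] at ht
    rcases ht with h | h | h | h | h <;> subst h <;> simp [T]
  obtain ⟨v, hv⟩ := hform t htT
  have hg1' : g - 1 ≠ 0 := sub_ne_zero.mpr hg1
  have hv10 : v1 - v0 ≠ 0 := by
    intro h0
    have : c * (g - 1) = 0 := by
      have h5 : algebraMap F L (v1 - v0) = 0 := by rw [h0, map_zero]
      rw [map_sub] at h5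
      linear_combination hcg - hc_eq + h5
    rcases mul_eq_zero.mp this with h | h
    · exact hc0 h
    · exact hg1' h
  refine ⟨(v - v0) / (v1 - v0), ?_⟩
  have hv10' : algebraMap F L (v1 - v0) ≠ 0 := by rwa [Ne, map_eq_zero]
  rw [geom_sum_eq hg1, map_div₀, div_eq_div_iff hg1' hv10', map_sub, map_sub]
  have h1 : c * (g - 1) = algebraMap F L v1 - algebraMap F L v0 := by
    linear_combination hcg - hc_eq
  have h2 : c * (g ^ t - 1) = algebraMap F L v - algebraMap F L v0 := by
    linear_combination hv - hc_eq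
  rw [← h1, ← h2]
  ring

/-- **The answer to Q1 is no.**  For every prime power `q`, every field `F` with `q` elements,
every quadratic extension `L` of `F`, every generator `θ` of `Lˣ`, every integer `m` and every
residue `s` modulo `q^2-1`, the set `{0,1,4,10,18,23,25}` modulo `q^2-1` is not contained in
`m * Bose_2(q,1) + s`. -/
theorem result (F L : Type*) [Field F] [Finite F] [Field L] [Algebra F L]
    (hd : Module.finrank F L = 2) (θ : Lˣ) (hθ : ∀ x : Lˣ, x ∈ Subgroup.zpowers θ)
    (m : ℤ) (s : ZMod ((Nat.card F) ^ 2 - 1)) :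
    ¬ T ((Nat.card F) ^ 2 - 1) ⊆ (fun a => (m : ZMod ((Nat.card F) ^ 2 - 1)) * a + s) ''
      Bose F L θ := by
  intro hT
  have hq2 : 2 ≤ Nat.card F := Finite.one_lt_card
  have hfin : Module.Finite F L := Module.finite_of_finrank_pos (by omega)
  have hLfin : Finite L := Module.finite_of_finite F
  have hcardL : Nat.card L = (Nat.card F) ^ 2 := by
    rw [Module.natCard_eq_pow_finrank (K := F), hd]
  have hcardU : Nat.card Lˣ = (Nat.card F) ^ 2 - 1 := by
    rw [Nat.card_units, hcardL]
  have hM3 : 3 ≤ (Nat.card F) ^ 2 - 1 := by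
    have : 2 ^ 2 ≤ (Nat.card F) ^ 2 := Nat.pow_le_pow_left hq2 2
    omega
  have hord : orderOf θ = (Nat.card F) ^ 2 - 1 := by
    rw [orderOf_eq_card_of_forall_mem_zpowers hθ, hcardU]
  exact core F L hd θ hθ _ hM3 hord m s hT

end Pool.Agent.Results.MP_cb32b9_nt.NoGolombRuler
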